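import Mathlib

/-!
# A fuzzy implication satisfying only (CP)

Take the implication `J(x,y) = 1` if `x ≤ y` and `J(x,y) = 0` otherwise, and the negation
`N(x) = 1 - x^2`, which is strictly decreasing and not involutive. Since `x ≤ y` iff
`N(y) ≤ N(x)`, the law (CP) holds. The laws (L-CP) and (R-CP) both fail at `x = 4/5`, `y = 2/5`.
-/

set_option autoImplicit false

namespace Pool.Agent.Results.MP_e504dd_lc.OnlyCP

open unitInterval

/-- A fuzzy negation: a non-increasing map of `[0,1]` to itself with `N 0 = 1` and `N 1 = 0`. -/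
def IsFuzzyNegation (N : I → I) : Prop :=
  (∀ x y : I, x ≤ y → N y ≤ N x) ∧ N 0 = 1 ∧ N 1 = 0

/-- A fuzzy implication: non-increasing in the first variable, non-decreasing in the second one,
with the boundary values `J 0 0 = J 1 1 = 1` and `J 1 0 = 0`. -/
def IsFuzzyImplication (J : I → I → I) : Prop :=
  (∀ x x' y : I, x ≤ x' → J x' y ≤ J x y) ∧ (∀ x y y' : I, y ≤ y' → J x y ≤ J x y') ∧
    J 0 0 = 1 ∧ J 1 1 = 1 ∧ J 1 0 = 0

/-- The law (CP) with respect to `N`. -/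
def CP (J : I → I → I) (N : I → I) : Prop := ∀ x y : I, J x y = J (N y) (N x)

/-- The law (L-CP) with respect to `N`. -/
def LCP (J : I → I → I) (N : I → I) : Prop := ∀ x y : I, J (N x) y = J (N y) x

/-- The law (R-CP) with respect to `N`. -/
def RCP (J : I → I → I) (N : I → I) : Prop := ∀ x y : I, J x (N y) = J y (N x)

/-- The implication which is `1` if `x ≤ y` and `0` otherwise. -/
noncomputable def impl (x y : I) : I := by
  classical exact if x ≤ y then 1 else 0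

/-- The negation `1 - x^2`. -/
noncomputable def neg (x : I) : I :=
  ⟨1 - (x : ℝ) ^ 2, by
    constructor
    · have h0 := x.2.1
      have h1 := x.2.2
      nlinarith
    · have : 0 ≤ (x : ℝ) ^ 2 := sq_nonneg _
      linarith⟩

theorem neg_le_neg_iff' (x y : I) : neg y ≤ neg x ↔ x ≤ y := by
  have hx := x.2.1
  have hy := y.2.1
  rw [← Subtype.coe_le_coe, ← Subtype.coe_le_coe]
  show (1 - (y : ℝ) ^ 2 ≤ 1 - (x : ℝ) ^ 2) ↔ (x : ℝ) ≤ y
  constructor
  · intro h
    have h2 : (x : ℝ) ^ 2 ≤ (y : ℝ) ^ 2 := by linarith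
    exact (sq_le_sq₀ hx hy).1 h2
  · intro h
    have h2 : (x : ℝ) ^ 2 ≤ (y : ℝ) ^ 2 := (sq_le_sq₀ hx hy).2 h
    linarith

/-- There are a fuzzy implication `J` and a fuzzy negation `N` such that `J` satisfies (CP) with
respect to `N` but neither (L-CP) nor (R-CP) with respect to `N`. -/
theorem result : ∃ (J : I → I → I) (N : I → I), IsFuzzyImplication J ∧ IsFuzzyNegation N ∧
    CP J N ∧ ¬ LCP J N ∧ ¬ RCP J N := by
  classical
  have h45 : ((4 : ℝ) / 5) ∈ I := ⟨by norm_num, by norm_num⟩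
  have h25 : ((2 : ℝ) / 5) ∈ I := ⟨by norm_num, by norm_num⟩
  refine ⟨impl, neg, ⟨?_, ?_, ?_, ?_, ?_⟩, ⟨?_, ?_, ?_⟩, ?_, ?_, ?_⟩
  · intro x x' y h
    unfold impl
    by_cases h1 : x' ≤ y
    · rw [if_pos h1, if_pos (h.trans h1)]
    · rw [if_neg h1]
      exact unitInterval.nonneg'
  · intro x y y' h
    unfold impl
    by_cases h1 : x ≤ y
    · rw [if_pos h1, if_pos (h1.trans h)]
    · rw [if_neg h1]
      exact unitInterval.nonneg'
  · simp [impl]
  · simp [impl]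
  · unfold impl
    rw [if_neg]
    intro h
    have h2 : ((1 : I) : ℝ) ≤ ((0 : I) : ℝ) := h
    norm_num at h2
  · intro x y h
    exact (neg_le_neg_iff' x y).2 h
  · apply Subtype.ext
    simp [neg]
  · apply Subtype.ext
    simp [neg]
  · intro x y
    unfold impl
    by_cases h : x ≤ y
    · rw [if_pos h, if_pos ((neg_le_neg_iff' x y).2 h)]
    · rw [if_neg h, if_neg (fun h' => h ((neg_le_neg_iff' x y).1 h'))]
  · intro h
    have h1 := h ⟨4 / 5, h45⟩ ⟨2 / 5, h25⟩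
    unfold impl at h1
    have e1 : neg ⟨4 / 5, h45⟩ ≤ (⟨2 / 5, h25⟩ : I) := by
      rw [← Subtype.coe_le_coe]
      show (1 - ((4 : ℝ) / 5) ^ 2) ≤ 2 / 5
      norm_num
    have e2 : ¬ neg ⟨2 / 5, h25⟩ ≤ (⟨4 / 5, h45⟩ : I) := by
      rw [← Subtype.coe_le_coe]
      show ¬ (1 - ((2 : ℝ) / 5) ^ 2) ≤ 4 / 5
      norm_num
    rw [if_pos e1, if_neg e2] at h1
    exact one_ne_zero h1
  · intro h
    have h1 := h ⟨4 / 5, h45⟩ ⟨2 / 5, h25⟩
    unfold impl at h1
    have e1 : (⟨4 / 5, h45⟩ : I) ≤ neg ⟨2 / 5, h25⟩ := by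
      rw [← Subtype.coe_le_coe]
      show (4 : ℝ) / 5 ≤ 1 - ((2 : ℝ) / 5) ^ 2
      norm_num
    have e2 : ¬ (⟨2 / 5, h25⟩ : I) ≤ neg ⟨4 / 5, h45⟩ := by
      rw [← Subtype.coe_le_coe]
      show ¬ (2 : ℝ) / 5 ≤ 1 - ((4 : ℝ) / 5) ^ 2
      norm_num
    rw [if_pos e1, if_neg e2] at h1
    exact one_ne_zero h1

end Pool.Agent.Results.MP_e504dd_lc.OnlyCP
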